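import Mathlib

/-! Heat traces of symmetric matrices and a product environment. -/

set_option linter.unusedSectionVars false

namespace Pool.Agent.H.MP_2a8190_pr

open Finset Matrix Real Filter Topology
open scoped Kronecker

variable {S φ ι : Type} [Fintype S] [DecidableEq S] [Fintype φ] [DecidableEq φ] [Fintype ι]
  [DecidableEq ι]

structure Eig (A : Matrix S S ℝ) (l : S → ℝ) (e : S → S → ℝ) : Prop where
  sy : Aᵀ = A
  ev : ∀ i, A *ᵥ e i = l i • e i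
  pv : ∀ u v, u ⬝ᵥ v = ∑ i, (e i ⬝ᵥ u) * (e i ⬝ᵥ v)
  nm : ∀ i, e i ⬝ᵥ e i = 1

lemma eig {A : Matrix S S ℝ} (h : Aᵀ = A) : ∃ l e, Eig A l e := by
  have hA : A.IsHermitian := by rwa [IsHermitian, conjTranspose_eq_transpose_of_trivial]
  refine ⟨hA.eigenvalues, fun i => hA.eigenvectorBasis i, h, hA.mulVec_eigenvectorBasis,
    fun u v => ?_, fun i => ?_⟩
  · have := hA.eigenvectorBasis.sum_inner_mul_inner (WithLp.toLp 2 u) (WithLp.toLp 2 v)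
    simp only [EuclideanSpace.inner_eq_star_dotProduct, star_trivial] at this
    rw [dotProduct_comm, ← this]
    exact sum_congr rfl fun i _ => by rw [dotProduct_comm v]
  · have := hA.eigenvectorBasis.inner_eq_one i
    simpa only [EuclideanSpace.inner_eq_star_dotProduct, star_trivial] using this

lemma sym {A : Matrix S S ℝ} (h : Aᵀ = A) (u v : S → ℝ) : u ⬝ᵥ A *ᵥ v = v ⬝ᵥ A *ᵥ u := by
  rw [dotProduct_mulVec, ← mulVec_transpose, h, dotProduct_comm]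

variable {A : Matrix S S ℝ} {l : S → ℝ} {e : S → S → ℝ}

lemma Eig.co (h : Eig A l e) (i : S) (v : S → ℝ) : e i ⬝ᵥ A *ᵥ v = l i * (e i ⬝ᵥ v) := by
  rw [sym h.sy, h.ev, dotProduct_smul, dotProduct_comm, smul_eq_mul]

lemma Eig.form (h : Eig A l e) (u : S → ℝ) : u ⬝ᵥ A *ᵥ u = ∑ i, (e i ⬝ᵥ u) ^ 2 * l i := by
  rw [h.pv]; exact sum_congr rfl fun i _ => by rw [h.co]; ring

lemma Eig.sq (h : Eig A l e) (u : S → ℝ) : u ⬝ᵥ u = ∑ i, (e i ⬝ᵥ u) ^ 2 := by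
  rw [h.pv]; simp only [pow_two]

lemma Eig.val (h : Eig A l e) (i : S) : e i ⬝ᵥ A *ᵥ e i = l i := by rw [h.co, h.nm, mul_one]

noncomputable def ht (l : S → ℝ) (e : S → S → ℝ) (t : ℝ) (u v : S → ℝ) : ℝ :=
  ∑ i, exp (-(t * l i)) * ((e i ⬝ᵥ u) * (e i ⬝ᵥ v))

lemma Eig.lim (h : Eig A l e) {a : ℕ → ℝ} {t : ℝ} (ha : Tendsto (fun n : ℕ => n * a n) atTop (𝓝 t))
    (u v : S → ℝ) : Tendsto (fun n => u ⬝ᵥ (fun w => w - a n • A *ᵥ w)^[n] v) atTop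
      (𝓝 (ht l e t u v)) := by
  have e1 : ∀ (a : ℝ) i n, e i ⬝ᵥ (fun w => w - a • A *ᵥ w)^[n] v = (1 + -(a * l i)) ^ n * (e i ⬝ᵥ v) :=
    fun a i n => by
      induction n with
      | zero => simp
      | succ n ih =>
        rw [Function.iterate_succ_apply', dotProduct_sub, dotProduct_smul, h.co, ih, smul_eq_mul]
        ring
  simp only [h.pv u, e1, mul_left_comm (e _ ⬝ᵥ u)]
  refine tendsto_finsetSum _ fun i _ => Tendsto.mul_const _ (tendsto_one_add_pow_exp_of_tendsto ?_)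
  simpa [mul_assoc] using (ha.mul_const (l i)).neg

lemma tang (y m : ℝ) : exp (-m) * (1 + m - y) ≤ exp (-y) := by
  rw [show -y = -m + (m - y) by ring, exp_add]
  exact mul_le_mul_of_nonneg_left (by linarith [add_one_le_exp (m - y)]) (exp_pos _).le

lemma jen {J : Type} [Fintype J] (w y : J → ℝ) (y₀ : ℝ) (hw : ∀ j, 0 ≤ w j) (h1 : ∑ j, w j ≤ 1)
    {m : ℝ} (hm : ∑ j, w j * y j + (1 - ∑ j, w j) * y₀ ≤ m) :
    exp (-m) ≤ ∑ j, w j * exp (-y j) + (1 - ∑ j, w j) * exp (-y₀) := by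
  have h2 := sum_le_sum fun j (_ : j ∈ univ) => mul_le_mul_of_nonneg_left (tang (y j) m) (hw j)
  have h3 := mul_le_mul_of_nonneg_left (tang y₀ m) (sub_nonneg.2 h1)
  simp only [mul_left_comm (w _), mul_sub (w _), ← mul_sum, sum_sub_distrib, ← sum_mul] at h2
  nlinarith [mul_le_mul_of_nonneg_left hm (exp_pos (-m)).le]

lemma Eig.lin (h : Eig A l e) (t : ℝ) (u : S → ℝ) : u ⬝ᵥ u - t * (u ⬝ᵥ A *ᵥ u) ≤ ht l e t u u := by
  rw [h.form, h.sq, mul_sum, ← sum_sub_distrib]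
  exact sum_le_sum fun i _ => by
    nlinarith [add_one_le_exp (-(t * l i)), sq_nonneg (e i ⬝ᵥ u)]

lemma Eig.gap (h : Eig A l e) {t c : ℝ} (ht0 : 0 ≤ t) (hc : ∀ z, c * (z ⬝ᵥ z) ≤ z ⬝ᵥ A *ᵥ z)
    (u : S → ℝ) : ht l e t u u ≤ exp (-(t * c)) * (u ⬝ᵥ u) := by
  rw [h.pv, mul_sum]
  refine sum_le_sum fun i _ => mul_le_mul_of_nonneg_right ?_ (mul_self_nonneg _)
  have := hc (e i)
  rw [h.val, h.nm, mul_one] at this
  gcongr

variable {Δ : Matrix φ φ ℝ} {δ : φ → ℝ} {f : φ → φ → ℝ} {V : Matrix S φ ℝ}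

lemma iso (hV : Vᵀ * V = 1) (a : φ → ℝ) : (V *ᵥ a) ᵥ* V = a := by
  rw [← mulVec_transpose, mulVec_mulVec, hV, one_mulVec]

lemma trace_eq (hΔ : Eig Δ δ f) (t : ℝ) : ∑ x, ht l e t (fun s => V s x) (fun s => V s x) =
    ∑ i, exp (-(t * l i)) * ∑ j, (e i ⬝ᵥ V *ᵥ f j) ^ 2 := by
  simp only [ht]
  rw [sum_comm]
  refine sum_congr rfl fun i _ => ?_
  rw [← mul_sum]
  congr 1
  simp only [dotProduct_mulVec, dotProduct_comm (e i ᵥ* V), ← hΔ.sq]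
  rfl

lemma low (h : Eig A l e) (hΔ : Eig Δ δ f) (hV : Vᵀ * V = 1) {t : ℝ} (ht0 : 0 ≤ t)
    (hA : ∀ a, (V *ᵥ a) ⬝ᵥ A *ᵥ (V *ᵥ a) ≤ a ⬝ᵥ Δ *ᵥ a) :
    ∑ j, exp (-(t * δ j)) ≤ ∑ x, ht l e t (fun s => V s x) (fun s => V s x) := by
  simp only [trace_eq hΔ, mul_sum]
  rw [sum_comm]
  refine sum_le_sum fun j _ => ?_
  have h1 : ∑ i, (e i ⬝ᵥ V *ᵥ f j) ^ 2 = 1 := by
    rw [← h.sq, dotProduct_mulVec, iso hV, hΔ.nm]
  have h2 := hA (f j)
  rw [h.form, hΔ.val] at h2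
  have := jen (fun i => (e i ⬝ᵥ V *ᵥ f j) ^ 2) (fun i => t * l i) 0 (fun _ => sq_nonneg _) h1.le
    (m := t * δ j) (by
      simp only [mul_left_comm _ t, ← mul_sum, mul_zero, add_zero]
      gcongr)
  simpa [h1, mul_comm] using this

lemma upp (h : Eig A l e) (hΔ : Eig Δ δ f) (hV : Vᵀ * V = 1) {t c : ℝ} (ht0 : 0 ≤ t)
    (hA : ∀ z, c * ((z ᵥ* V) ⬝ᵥ Δ *ᵥ (z ᵥ* V) + (z ⬝ᵥ z - (z ᵥ* V) ⬝ᵥ (z ᵥ* V))) ≤ z ⬝ᵥ A *ᵥ z) :
    ∑ x, ht l e t (fun s => V s x) (fun s => V s x) ≤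
      ∑ j, exp (-(t * c * δ j)) + Fintype.card φ * exp (-(t * c)) := by
  have h1 : ∀ j, ∑ i, (e i ⬝ᵥ V *ᵥ f j) ^ 2 = 1 := fun j => by
    rw [← h.sq, dotProduct_mulVec, iso hV, hΔ.nm]
  have h2 : ∀ i, exp (-(t * l i)) * ∑ j, (e i ⬝ᵥ V *ᵥ f j) ^ 2 ≤
      ∑ j, (e i ⬝ᵥ V *ᵥ f j) ^ 2 * exp (-(t * c * δ j)) +
        (∑ j, (e i ⬝ᵥ V *ᵥ f j) ^ 2) * exp (-(t * c)) := fun i => by
    have h3 := hA (e i)
    have h4 : 0 ≤ (e i - V *ᵥ (e i ᵥ* V)) ⬝ᵥ (e i - V *ᵥ (e i ᵥ* V)) :=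
      sum_nonneg fun _ _ => mul_self_nonneg _
    rw [sub_dotProduct, dotProduct_sub, dotProduct_sub, dotProduct_comm (V *ᵥ _) (e i)] at h4
    simp only [dotProduct_mulVec, iso hV, h.nm] at h4
    rw [h.val, h.nm, hΔ.form, hΔ.sq] at h3
    rw [hΔ.sq] at h4
    simp only [dotProduct_mulVec, dotProduct_comm (e i ᵥ* V)]
    have h5 := jen (fun j => (f j ⬝ᵥ e i ᵥ* V) ^ 2) (fun j => t * c * δ j) (t * c)
      (fun _ => sq_nonneg _) (by linarith) (m := t * l i) (by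
        simp only [mul_left_comm _ (t * c), ← mul_sum]
        nlinarith [mul_le_mul_of_nonneg_left h3 ht0])
    have h6 : 0 ≤ ∑ j, (f j ⬝ᵥ e i ᵥ* V) ^ 2 * exp (-(t * c * δ j)) :=
      sum_nonneg fun _ _ => by positivity
    have h7 : 0 ≤ ∑ j, (f j ⬝ᵥ e i ᵥ* V) ^ 2 := sum_nonneg fun _ _ => sq_nonneg _
    generalize ∑ j, (f j ⬝ᵥ e i ᵥ* V) ^ 2 = w at *
    have h8 := exp_pos (-(t * c))
    nlinarith [mul_le_mul_of_nonneg_right h5 h7, mul_nonneg h6 (by linarith : 0 ≤ 1 - w),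
      mul_nonneg h8.le (mul_nonneg h7 h7)]
  rw [trace_eq hΔ]
  refine (sum_le_sum fun i _ => h2 i).trans_eq ?_
  rw [sum_add_distrib, ← sum_mul, sum_comm, sum_comm (s := (univ : Finset S))]
  simp [← sum_mul, h1]

def K (s : Bool → ℝ) (T : Finset ι) : Matrix (ι → Bool) (ι → Bool) ℝ := fun η ξ =>
  ∏ i, if i ∈ T then s (η i) * s (ξ i) else if η i = ξ i then 1 else 0

def rt (s : Bool → ℝ) (η : ι → Bool) : ℝ := ∏ i, s (η i)

lemma sum_pi (g : ι → Bool → ℝ) : ∑ η : ι → Bool, ∏ i, g i (η i) = ∏ i, (g i true + g i false) := by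
  rw [← Fintype.piFinset_univ, ← prod_univ_sum]
  simp

variable {s : Bool → ℝ} (hs : s true ^ 2 + s false ^ 2 = 1)

lemma K_sy (T : Finset ι) : (K s T)ᵀ = K s T := by
  ext η ξ
  simp only [K, transpose_apply, mul_comm, eq_comm]

include hs in
lemma K_mul (T U : Finset ι) : K s T * K s U = K s (T ∪ U) := by
  ext η ξ
  simp only [K, mul_apply, ← prod_mul_distrib]
  rw [sum_pi fun i b => (if i ∈ T then s (η i) * s b else if η i = b then 1 else 0) *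
    if i ∈ U then s b * s (ξ i) else if b = ξ i then 1 else 0]
  refine prod_congr rfl fun i _ => ?_
  by_cases h1 : i ∈ T <;> by_cases h2 : i ∈ U <;> cases η i <;> cases ξ i <;> simp [h1, h2] <;>
    first | linear_combination (s true * s true) * hs | linear_combination (s true * s false) * hs
          | linear_combination (s false * s false) * hs

lemma K_empty : K s (∅ : Finset ι) = 1 := by
  ext η ξ
  simp [K, one_apply, funext_iff, Fintype.prod_boole]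

include hs in
lemma proj (T : Finset ι) (y : (ι → Bool) → ℝ) : y ⬝ᵥ K s T *ᵥ y ≤ y ⬝ᵥ y := by
  have h : 0 ≤ (y - K s T *ᵥ y) ⬝ᵥ (y - K s T *ᵥ y) := sum_nonneg fun _ _ => mul_self_nonneg _
  rw [sub_dotProduct, dotProduct_sub, dotProduct_sub, sym (K_sy T) (K s T *ᵥ y), mulVec_mulVec,
    K_mul hs, union_self, dotProduct_comm (K s T *ᵥ y)] at h
  linarith

include hs in
lemma es (z : (ι → Bool) → ℝ) (T : Finset ι) :
    z ⬝ᵥ z - z ⬝ᵥ K s T *ᵥ z ≤ ∑ i ∈ T, (z ⬝ᵥ z - z ⬝ᵥ K s {i} *ᵥ z) := by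
  induction T using Finset.induction_on with
  | empty => simp [K_empty]
  | insert i T hi ih =>
    have h := proj hs T (z - K s {i} *ᵥ z)
    simp only [sub_dotProduct, dotProduct_sub, mulVec_sub, dotProduct_comm (K s {i} *ᵥ z),
      sym (K_sy {i}) (K s {i} *ᵥ z), sym (K_sy {i}) (K s T *ᵥ z),
      sym (K_sy {i}) (K s (T ∪ {i}) *ᵥ z), mulVec_mulVec, K_mul hs, union_self] at h
    rw [sum_insert hi, insert_eq]
    simp only [union_comm T, ← union_assoc, union_self] at h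
    linarith

end Pool.Agent.H.MP_2a8190_pr
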