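import Pool.Agent.H.MP_2a8190_pr.A

/-! The killed generator of walk and environment, and its symmetrisation. -/

set_option linter.unusedSectionVars false

namespace Pool.Agent.H.MP_2a8190_pr

open Finset Matrix Real Filter Topology Function
open scoped Kronecker

variable {φ ι : Type} [Fintype φ] [DecidableEq φ] [Fintype ι] [DecidableEq ι]
  {s : Bool → ℝ} (τ : ι → Option φ → Option φ)

def Pm (i : ι) : Matrix φ φ ℝ := 1 - of fun x y => if τ i (some x) = some y then 1 else 0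

def GA (s : Bool → ℝ) (μ : ℝ) : Matrix (φ × (ι → Bool)) (φ × (ι → Bool)) ℝ :=
  ∑ i, (μ • (1 : Matrix φ φ ℝ) ⊗ₖ (1 - K s {i}) +
    Pm τ i ⊗ₖ diagonal fun η => if η i then (1 : ℝ) else 0)

def VV (φ ι : Type) [DecidableEq φ] [Fintype ι] (s : Bool → ℝ) : Matrix (φ × (ι → Bool)) φ ℝ :=
  fun z y => if z.1 = y then rt s z.2 else 0

lemma GA_apply (μ : ℝ) (z : φ × (ι → Bool) → ℝ) (x : φ) (η : ι → Bool) :
    (GA τ s μ *ᵥ z) (x, η) = ∑ i, (μ * (z (x, η) - (K s {i} *ᵥ fun ξ => z (x, ξ)) η) +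
      if η i then (Pm τ i *ᵥ fun y => z (y, η)) x else 0) := by
  rw [GA, sum_mulVec, Finset.sum_apply]
  refine sum_congr rfl fun i _ => ?_
  rw [add_mulVec, smul_mulVec, Pi.add_apply, Pi.smul_apply, smul_eq_mul]
  congr 2
  · simp [mulVec, dotProduct, Fintype.sum_prod_type, one_apply, sub_mul]
  · simp [mulVec, dotProduct, Fintype.sum_prod_type, diagonal_apply]

lemma GA_form (μ : ℝ) (z : φ × (ι → Bool) → ℝ) : z ⬝ᵥ GA τ s μ *ᵥ z =
    μ * ∑ x, ∑ i, ((fun ξ => z (x, ξ)) ⬝ᵥ (fun ξ => z (x, ξ)) -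
      (fun ξ => z (x, ξ)) ⬝ᵥ K s {i} *ᵥ fun ξ => z (x, ξ)) +
    ∑ η, ∑ i, if η i then (fun y => z (y, η)) ⬝ᵥ Pm τ i *ᵥ fun y => z (y, η) else 0 := by
  simp only [dotProduct, Fintype.sum_prod_type, GA_apply, mul_sum, mul_add, sum_add_distrib,
    ← sum_sub_distrib]
  congr 1
  · refine sum_congr rfl fun x _ => sum_comm.trans (sum_congr rfl fun i _ =>
      sum_congr rfl fun η _ => by ring)
  · refine sum_comm.trans (sum_congr rfl fun η _ => sum_comm.trans (sum_congr rfl fun i _ => ?_))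
    split_ifs <;> simp

variable {τ} (hτ : ∀ i x y, τ i (some x) = some y → τ i (some y) = some x)
  (hs : s true ^ 2 + s false ^ 2 = 1)

include hτ in
lemma Pm_sy (i : ι) : (Pm τ i)ᵀ = Pm τ i := by
  ext x y
  simp only [Pm, transpose_apply, Matrix.sub_apply, of_apply, one_apply, eq_comm (a := x),
    (⟨hτ i x y, hτ i y x⟩ : _ ↔ _)]

include hτ in
lemma GA_sy (μ : ℝ) : (GA τ s μ)ᵀ = GA τ s μ := by
  simp only [GA, transpose_sum, transpose_add, transpose_smul, ← kroneckerMap_transpose,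
    transpose_one, transpose_sub, K_sy, Pm_sy hτ, diagonal_transpose]

lemma Pm_apply (i : ι) (a : φ → ℝ) (x : φ) : (Pm τ i *ᵥ a) x = a x - (τ i (some x)).elim 0 a := by
  rw [Pm, sub_mulVec, one_mulVec, Pi.sub_apply]
  rcases h : τ i (some x) with _ | y <;> simp [mulVec, dotProduct, h]

include hτ in
lemma swap_le (i : ι) (a : φ → ℝ) :
    ∑ x, (τ i (some x)).elim 0 a = ∑ x, if τ i (some x) = none then 0 else a x := by
  have h := sym (Pm_sy hτ i) 1 a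
  simp only [dotProduct, Pm_apply, Pi.one_apply, one_mul, mul_sub, mul_one, sum_sub_distrib,
    sub_right_inj] at h
  refine h.trans (sum_congr rfl fun x _ => ?_)
  rcases τ i (some x) with _ | y <;> simp

include hτ in
lemma Pm_form (i : ι) (a : φ → ℝ) : 2 * (a ⬝ᵥ Pm τ i *ᵥ a) =
    ∑ x, ((a x - (τ i (some x)).elim 0 a) ^ 2 + if τ i (some x) = none then a x ^ 2 else 0) := by
  have h := swap_le hτ i fun x => a x ^ 2
  rw [← sub_eq_zero, ← sum_sub_distrib] at h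
  simp only [dotProduct, Pm_apply, mul_sum]
  rw [← sub_eq_zero, ← sum_sub_distrib, ← neg_eq_zero, ← sum_neg_distrib]
  refine Eq.trans (sum_congr rfl fun x _ => ?_) h
  rcases τ i (some x) with _ | y <;> simp <;> ring

include hτ in
lemma Pm_pos (i : ι) (a : φ → ℝ) : 0 ≤ a ⬝ᵥ Pm τ i *ᵥ a :=
  nonneg_of_mul_nonneg_right ((Pm_form hτ i a).ge.trans' (sum_nonneg fun x _ => by positivity))
    two_pos

lemma VV_mul (a : φ → ℝ) (x : φ) (η : ι → Bool) : (VV φ ι s *ᵥ a) (x, η) = rt s η * a x := by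
  simp [VV, mulVec, dotProduct]

lemma mul_VV (z : φ × (ι → Bool) → ℝ) (x : φ) :
    (z ᵥ* VV φ ι s) x = ∑ η, z (x, η) * rt s η := by
  simp [VV, vecMul, dotProduct, Fintype.sum_prod_type]

include hs in
lemma rt_sq : ∑ η : ι → Bool, rt s η * rt s η = 1 := by
  simp only [rt, ← prod_mul_distrib]
  rw [sum_pi fun _ b => s b * s b]
  simp [← sq, hs]

include hs in
lemma rt_p (i : ι) : ∑ η : ι → Bool, (if η i then rt s η * rt s η else 0) = s true ^ 2 := by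
  have := sum_pi fun j b => (if j = i then if b then 1 else 0 else 1) * (s b * s b)
  simp only [prod_mul_distrib, prod_ite_eq', mem_univ, if_true] at this
  simp only [ite_mul, one_mul, zero_mul] at this
  refine this.trans ((prod_eq_single i (fun j _ hj => ?_) (by simp)).trans (by simp [sq]))
  simp [hj, ← sq, hs]

include hs in
lemma VV_iso : (VV φ ι s)ᵀ * VV φ ι s = 1 := by
  ext x y
  by_cases h : x = y <;>
    simp [VV, mul_apply, Fintype.sum_prod_type, one_apply, h, rt_sq hs, eq_comm (a := y)]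

lemma K_univ (z : (ι → Bool) → ℝ) : z ⬝ᵥ K s univ *ᵥ z = (∑ η, z η * rt s η) ^ 2 := by
  rw [sq, sum_mul_sum]
  simp only [dotProduct, mulVec, K, mem_univ, if_true, prod_mul_distrib, mul_sum, rt]
  exact sum_congr rfl fun _ _ => sum_congr rfl fun _ _ => by ring

include hs in
lemma env (z : φ × (ι → Bool) → ℝ) : z ⬝ᵥ z - (z ᵥ* VV φ ι s) ⬝ᵥ (z ᵥ* VV φ ι s) ≤
    ∑ x, ∑ i, ((fun ξ => z (x, ξ)) ⬝ᵥ (fun ξ => z (x, ξ)) -
      (fun ξ => z (x, ξ)) ⬝ᵥ K s {i} *ᵥ fun ξ => z (x, ξ)) := by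
  refine le_trans (le_of_eq ?_) (sum_le_sum fun x _ => es hs (fun ξ => z (x, ξ)) univ)
  simp only [K_univ, sum_sub_distrib]
  simp [dotProduct, mul_VV, Fintype.sum_prod_type, sq]

include hs in
lemma walkV (a : φ → ℝ) : ∑ η : ι → Bool, ∑ i, (if η i then (fun y => (VV φ ι s *ᵥ a) (y, η)) ⬝ᵥ
    Pm τ i *ᵥ fun y => (VV φ ι s *ᵥ a) (y, η) else 0) = s true ^ 2 * (a ⬝ᵥ (∑ i, Pm τ i) *ᵥ a) := by
  have e : ∀ η, (fun y => (VV φ ι s *ᵥ a) (y, η)) = rt s η • a := fun η => funext fun y => VV_mul ..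
  rw [sum_comm, sum_mulVec, dotProduct_sum, mul_sum]
  refine sum_congr rfl fun i _ => ?_
  simp only [e, mulVec_smul, dotProduct_smul, smul_dotProduct, smul_eq_mul, ← rt_p hs i, sum_mul,
    ite_mul, zero_mul, mul_assoc]

include hs in
lemma K_rt (i : ι) : K s {i} *ᵥ rt s = rt s := by
  funext η
  simp only [mulVec, dotProduct, K, rt, ← prod_mul_distrib]
  rw [sum_pi fun j b => (if j ∈ ({i} : Finset ι) then s (η j) * s b else if η j = b then 1 else 0) * s b]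
  refine prod_congr rfl fun j _ => ?_
  by_cases h : j = i
  · simp only [h, mem_singleton, if_true]
    linear_combination s (η i) * hs
  · cases η j <;> simp [h]

include hs in
lemma formV (μ : ℝ) (a : φ → ℝ) : (VV φ ι s *ᵥ a) ⬝ᵥ GA τ s μ *ᵥ (VV φ ι s *ᵥ a) =
    s true ^ 2 * (a ⬝ᵥ (∑ i, Pm τ i) *ᵥ a) := by
  have e : ∀ x, (fun η => (VV φ ι s *ᵥ a) (x, η)) = a x • rt s :=
    fun x => funext fun y => (VV_mul ..).trans (mul_comm ..)
  rw [GA_form, walkV hs]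
  simp [e, mulVec_smul, K_rt hs]

include hs hτ in
lemma form_ge {μ D : ℝ} (hμ : 0 ≤ μ) (hμ1 : μ ≤ 1) (hD : 1 ≤ D)
    (hΔ : ∀ a, a ⬝ᵥ (∑ i, Pm τ i) *ᵥ a ≤ D * (a ⬝ᵥ a)) (z : φ × (ι → Bool) → ℝ) :
    μ * s true ^ 2 / (4 * D) * ((z ᵥ* VV φ ι s) ⬝ᵥ (∑ i, Pm τ i) *ᵥ (z ᵥ* VV φ ι s) +
      (z ⬝ᵥ z - (z ᵥ* VV φ ι s) ⬝ᵥ (z ᵥ* VV φ ι s))) ≤ z ⬝ᵥ GA τ s μ *ᵥ z := by
  have h1 := env (φ := φ) (ι := ι) hs z
  have h2 := walkV (τ := τ) hs (z ᵥ* VV φ ι s)
  set g := VV φ ι s *ᵥ (z ᵥ* VV φ ι s) with hg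
  have h3 : (z - g) ⬝ᵥ (z - g) = z ⬝ᵥ z - (z ᵥ* VV φ ι s) ⬝ᵥ (z ᵥ* VV φ ι s) := by
    rw [sub_dotProduct, dotProduct_sub, dotProduct_sub, dotProduct_comm g z, hg]
    simp only [dotProduct_mulVec, iso (VV_iso hs)]
    ring
  have h4 : ∀ η : ι → Bool, (∑ i, if η i then (fun y => g (y, η)) ⬝ᵥ Pm τ i *ᵥ fun y => g (y, η) else 0)
      ≤ 2 * (∑ i, if η i then (fun y => z (y, η)) ⬝ᵥ Pm τ i *ᵥ fun y => z (y, η) else 0) +
        2 * (D * ((fun y => (z - g) (y, η)) ⬝ᵥ fun y => (z - g) (y, η))) := fun η => by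
    refine le_trans ?_ (add_le_add le_rfl (mul_le_mul_of_nonneg_left (hΔ _) two_pos.le))
    rw [sum_mulVec, dotProduct_sum, mul_sum, mul_sum, ← sum_add_distrib]
    refine sum_le_sum fun i _ => ?_
    have k1 := Pm_pos hτ i fun y => (z - g) (y, η)
    split_ifs
    · have k2 := Pm_pos hτ i ((2 : ℝ) • (fun y => z (y, η)) - fun y => g (y, η))
      rw [show (fun y => (z - g) (y, η)) = (fun y => z (y, η)) - fun y => g (y, η) from rfl]
      simp only [mulVec_sub, sub_dotProduct, dotProduct_sub, mulVec_smul, smul_dotProduct,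
        dotProduct_smul, smul_eq_mul] at k2 ⊢
      linarith
    · linarith
  have h5 := sum_le_sum fun η (_ : η ∈ univ) => h4 η
  have h6 : ∑ η : ι → Bool, ((fun y => (z - g) (y, η)) ⬝ᵥ fun y => (z - g) (y, η)) =
      (z - g) ⬝ᵥ (z - g) := by simp only [dotProduct, Fintype.sum_prod_type_right]
  have h7 : 0 ≤ (z - g) ⬝ᵥ (z - g) := sum_nonneg fun _ _ => mul_self_nonneg _
  have h8 : 0 ≤ ∑ η : ι → Bool, ∑ i, if η i then (fun y => z (y, η)) ⬝ᵥ Pm τ i *ᵥ fun y => z (y, η)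
      else 0 := sum_nonneg fun η _ => sum_nonneg fun i _ => by
    split_ifs
    exacts [Pm_pos hτ i _, le_rfl]
  rw [sum_add_distrib, ← mul_sum, ← mul_sum, ← mul_sum, h2, h6] at h5
  rw [GA_form, div_mul_eq_mul_div, div_le_iff₀ (by positivity)]
  rw [← h3] at h1 ⊢
  have h9 : s true ^ 2 ≤ 1 := by nlinarith [sq_nonneg (s false)]
  generalize s true ^ 2 = p at *
  generalize (z - g) ⬝ᵥ (z - g) = H at *
  nlinarith [mul_le_mul_of_nonneg_left h5 hμ, mul_le_mul_of_nonneg_left h1 hμ,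
    mul_nonneg (mul_nonneg hμ h7) (sub_nonneg.2 h9), mul_nonneg (mul_nonneg hμ h7) (sub_nonneg.2 hD),
    mul_nonneg h8 (sub_nonneg.2 hD), mul_nonneg h8 (sub_nonneg.2 hμ1),
    mul_nonneg (sub_nonneg.2 (mul_le_mul_of_nonneg_left h1 hμ)) (sub_nonneg.2 hD)]

end Pool.Agent.H.MP_2a8190_pr
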