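import Pool.Agent.H.MP_2a8190_pr.B
import Pool.Agent.H.MP_b9fdbf_pr.C

/-! A chain driven by independent marks, with stacks of fresh bits. -/

set_option linter.unusedSectionVars false

namespace Pool.Agent.H.MP_2a8190_pr

open Finset Matrix Real Filter Topology Function MeasureTheory
open Pool.Agent.H.MP_b9fdbf_pr (PP indep ev)

variable {φ ι : Type} [Fintype φ] [DecidableEq φ] [Fintype ι] [DecidableEq ι]
  (τ : ι → Option φ → Option φ) (ρ : Measure Bool) [IsProbabilityMeasure ρ]

local instance mo : MeasurableSpace (Option φ) := ⊤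

def top (β : ι × ℕ → Bool) (i : ι) : Bool := β (i, 0)

def pop (i : ι) (β : ι × ℕ → Bool) (c : ι × ℕ) : Bool := β (c.1, if c.1 = i then c.2 + 1 else c.2)

def step : Option (Bool × ι) → Option φ × (ι × ℕ → Bool) → Option φ × (ι × ℕ → Bool)
  | none, y => y
  | some (true, i), y => (if y.2 (i, 0) then τ i y.1 else y.1, y.2)
  | some (false, i), y => (y.1, pop i y.2)

noncomputable def Top : Option (Bool × ι) → (Option φ × (ι → Bool) → ℝ) → Option φ × (ι → Bool) → ℝ
  | none, f, z => f z
  | some (true, i), f, z => f (if z.2 i then τ i z.1 else z.1, z.2)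
  | some (false, i), f, z => ∑ b, ρ.real {b} * f (z.1, update z.2 i b)

def run {n : ℕ} (w : Fin n → Option (Bool × ι)) (y : Option φ × (ι × ℕ → Bool)) :
    Option φ × (ι × ℕ → Bool) := Fin.foldl n (fun y k => step τ (w k) y) y

def pr (y : Option φ × (ι × ℕ → Bool)) : Option φ × (ι → Bool) := (y.1, top y.2)

lemma mp_top : MeasurePreserving top (PP ρ (ι × ℕ)) (PP ρ ι) :=
  ⟨by unfold top; fun_prop, Measure.map_infinitePi_infinitePi_of_inj (Prod.mk_left_injective 0)⟩

lemma mp_pop (i : ι) : MeasurePreserving (pop i) (PP ρ (ι × ℕ)) (PP ρ (ι × ℕ)) :=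
  ⟨by unfold pop; fun_prop, Measure.map_infinitePi_infinitePi_of_inj (by
    rintro ⟨a, b⟩ ⟨c, d⟩ h
    obtain ⟨rfl, h⟩ := Prod.mk.inj h
    split_ifs at h <;> simp_all)⟩

lemma m_step (o : Option (Bool × ι)) : Measurable (step τ o) := by
  rcases o with _ | ⟨_ | _, i⟩
  · exact measurable_id
  · exact measurable_fst.prodMk ((mp_pop (.dirac true) i).measurable.comp measurable_snd)
  · exact (Measurable.ite (by measurability) (measurable_from_top.comp measurable_fst)
      measurable_fst).prodMk measurable_snd

lemma m_run {n : ℕ} (w : Fin n → Option (Bool × ι)) : Measurable (run τ w) := by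
  induction n with
  | zero => exact measurable_id
  | succ n ih =>
    have := (ih fun k => w k.succ).comp (m_step τ (w 0))
    unfold run at this ⊢
    simpa only [Fin.foldl_succ, comp_def] using this

lemma m_ev {n : ℕ} (w : Fin n → Option (Bool × ι)) (B : Set (Option φ × (ι → Bool))) (x : Option φ)
    (η : ι → Bool) : MeasurableSet {β | top β = η ∧ pr (run τ w (x, β)) ∈ B} := by
  have m := (mp_top (ι := ι) (.dirac true)).measurable
  exact (m (measurableSet_singleton η)).inter (((measurable_fst.prodMk (m.comp measurable_snd)).comp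
    ((m_run τ w).comp measurable_prodMk_left)) .of_discrete)

lemma word (B : Set (Option φ × (ι → Bool))) {n : ℕ} (w : Fin n → Option (Bool × ι)) :
    ∀ x η, (PP ρ (ι × ℕ)).real {β | top β = η ∧ pr (run τ w (x, β)) ∈ B} =
      (∏ i, ρ.real {η i}) * Fin.foldr n (fun k g => Top τ ρ (w k) g) (B.indicator 1) (x, η) := by
  induction n with
  | zero =>
    intro x η
    by_cases h : (x, η) ∈ B
    · rw [show {β | top β = η ∧ pr (run τ w (x, β)) ∈ B} = top ⁻¹' {η} from
        Set.ext fun β => and_iff_left_of_imp fun e => by simpa [run, pr, e] using h,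
        (mp_top ρ).measureReal_preimage (measurableSet_singleton _).nullMeasurableSet]
      simp [h, Measure.real]
    · rw [show {β | top β = η ∧ pr (run τ w (x, β)) ∈ B} = ∅ from
        Set.eq_empty_of_forall_notMem fun β e => h (by simpa [run, pr, e.1] using e.2)]
      simp [h]
  | succ n ih =>
    intro x η
    have e : ∀ y, run τ w y = run τ (fun k => w k.succ) (step τ (w 0) y) := fun y => Fin.foldl_succ ..
    simp only [e, Fin.foldr_succ]
    rcases w 0 with _ | ⟨_ | _, i⟩
    · exact ih _ x η
    · have m := fun b => m_ev τ (fun k => w k.succ) B x (update η i b)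
      rw [show {β | top β = η ∧ pr (run τ (fun k => w k.succ) (step τ (some (false, i)) (x, β))) ∈ B} =
        {β | β (i, 0) ∈ ({η i} : Set Bool)} ∩ pop i ⁻¹' ⋃ b,
          {β | top β = update η i b ∧ pr (run τ (fun k => w k.succ) (x, β)) ∈ B} from Set.ext fun β => by
          simp only [Set.mem_ofPred_eq, Set.mem_inter_iff, Set.mem_preimage, Set.mem_iUnion, step,
            Set.mem_singleton_iff, eq_update_iff, exists_and_right, exists_eq', true_and, ← and_assoc]
          refine and_congr_left fun _ => ⟨fun h => by simp +contextual [← h, top, pop], fun h =>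
            funext fun j => ?_⟩
          by_cases k : j = i
          · rw [k]; exact h.1
          · simpa [top, pop, k] using h.2 j k,
        Measure.real, indep ρ {(i, 0)} (by measurability) ((mp_pop ρ i).measurable (.iUnion m))
          (fun ω ω' h k => by simpa [h] using k) fun ω ω' h k => by
            rwa [Set.mem_preimage, show pop i ω' = pop i ω from funext fun c => (h _ (by
              simp only [Set.mem_singleton_iff, Prod.mk.injEq, not_and]
              intro k; simp [k])).symm],
        ev ρ .of_discrete, (mp_pop ρ i).measure_preimage (MeasurableSet.iUnion m).nullMeasurableSet,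
        ENNReal.toReal_mul, ← Measure.real, ← Measure.real, measureReal_iUnion_fintype
          (fun a b h => Set.disjoint_left.2 fun β k1 k2 =>
            h (update_injective η i (k1.1.symm.trans k2.1))) m]
      simp only [ih, Top, mul_sum]
      refine sum_congr rfl fun b _ => ?_
      rw [← mul_prod_erase _ _ (mem_univ i), ← mul_prod_erase _ _ (mem_univ i), update_self,
        prod_congr rfl fun j hj => by rw [update_of_ne (ne_of_mem_erase hj)]]
      ring
    · rw [Top, ← ih]
      congr 1
      ext β
      exact and_congr_right fun h => by rw [← h]; rfl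

noncomputable def TT (wt : Option (Bool × ι) → ℝ) (f : Option φ × (ι → Bool) → ℝ)
    (z : Option φ × (ι → Bool)) : ℝ := ∑ o, wt o * Top τ ρ o f z

lemma words (wt : Option (Bool × ι) → ℝ) (f : Option φ × (ι → Bool) → ℝ) (n : ℕ) :
    (TT τ ρ wt)^[n] f = fun z => ∑ w : Fin n → Option (Bool × ι), (∏ k, wt (w k)) *
      Fin.foldr n (fun k g => Top τ ρ (w k) g) f z := by
  induction n with
  | zero => simp
  | succ n ih =>
    funext z
    rw [iterate_succ_apply', ih, ← (Fin.consEquiv fun _ => Option (Bool × ι)).sum_comp,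
      Fintype.sum_prod_type]
    refine sum_congr rfl fun o _ => ?_
    simp only [Fin.consEquiv_apply, Fin.prod_univ_succ, Fin.foldr_succ, Fin.cons_zero, Fin.cons_succ,
      mul_assoc, ← mul_sum]
    congr 1
    rcases o with _ | ⟨_ | _, i⟩
    · rfl
    · simp only [Top, mul_sum]
      exact sum_comm.trans (sum_congr rfl fun _ _ => sum_congr rfl fun _ _ => by ring)
    · rfl

lemma chain {Z : Type} [MeasurableSpace Z] (Λ : Measure Z) [IsProbabilityMeasure Λ]
    {pk : Z → Option (Bool × ι)} (hp : ∀ o, MeasurableSet {z | pk z = o})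
    (B : Set (Option φ × (ι → Bool))) (n : ℕ) (x : Option φ) :
    MeasurableSet {y : (ι × ℕ → Bool) × (ℕ → Z) | pr (run τ (fun k : Fin n => pk (y.2 k)) (x, y.1)) ∈ B} ∧
    ((PP ρ (ι × ℕ)).prod (PP Λ ℕ)).real {y | pr (run τ (fun k : Fin n => pk (y.2 k)) (x, y.1)) ∈ B} =
      ∑ η, (∏ i, ρ.real {η i}) *
        (TT τ ρ fun o => Λ.real {z | pk z = o})^[n] (B.indicator 1) (x, η) := by
  have h1 : MeasurePreserving (fun (z : ℕ → Z) (k : Fin n) => z k) (PP Λ ℕ) (PP Λ (Fin n)) :=
    ⟨by fun_prop, Measure.map_infinitePi_infinitePi_of_inj Fin.val_injective⟩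
  have m : ∀ w : Fin n → Option (Bool × ι), MeasurableSet (Set.univ.pi fun k => {z | pk z = w k}) :=
    fun w => .univ_pi fun k => hp _
  have m' := fun c : (ι → Bool) × (Fin n → Option (Bool × ι)) =>
    (m_ev τ c.2 B x c.1).prod (h1.measurable (m c.2))
  rw [show {y : (ι × ℕ → Bool) × (ℕ → Z) | pr (run τ (fun k : Fin n => pk (y.2 k)) (x, y.1)) ∈ B} =
    ⋃ c : (ι → Bool) × (Fin n → Option (Bool × ι)), {β | top β = c.1 ∧ pr (run τ c.2 (x, β)) ∈ B} ×ˢ
      ((fun (z : ℕ → Z) (k : Fin n) => z k) ⁻¹' Set.univ.pi fun k => {z | pk z = c.2 k}) from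
    Set.ext fun y => by simp [← funext_iff]]
  refine ⟨.iUnion m', ?_⟩
  rw [measureReal_iUnion_fintype (fun a b h => Set.disjoint_left.2 fun y k1 k2 => h (Prod.ext
      (k1.1.1.symm.trans k2.1.1) (funext fun k => (k1.2 k trivial).symm.trans (k2.2 k trivial)))) m',
    Fintype.sum_prod_type, words]
  refine sum_congr rfl fun η _ => (sum_congr rfl fun w _ => ?_).trans (mul_sum _ _ _).symm
  rw [measureReal_prod_prod, word, h1.measureReal_preimage (m _).nullMeasurableSet, Measure.real,
    PP, Measure.infinitePi_eq_pi, Measure.pi_pi, ENNReal.toReal_prod]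
  simp only [Measure.real]
  ring

end Pool.Agent.H.MP_2a8190_pr
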