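import Pool.Agent.H.MP_2a8190_pr.C

/-! The chain on a fine time grid converges to the heat semigroup of the killed generator. -/

set_option linter.unusedSectionVars false

namespace Pool.Agent.H.MP_2a8190_pr

open Finset Matrix Real Filter Topology Function MeasureTheory ProbabilityTheory
open Pool.Agent.H.MP_b9fdbf_pr (PP)
open scoped NNReal

variable {φ ι : Type} [Fintype φ] [DecidableEq φ] [Fintype ι] [DecidableEq ι]
  {τ : ι → Option φ → Option φ} (ρ : Measure Bool) [IsProbabilityMeasure ρ]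

noncomputable def sr (b : Bool) : ℝ := √(ρ.real {b})

lemma sr_sq (b : Bool) : sr ρ b ^ 2 = ρ.real {b} := sq_sqrt measureReal_nonneg

lemma sr_sum : sr ρ true ^ 2 + sr ρ false ^ 2 = 1 := by
  rw [sr_sq, sr_sq, ← measureReal_union (by simp) .of_discrete, ← probReal_univ (μ := ρ)]
  congr 1
  ext b
  cases b <;> simp

lemma K_apply (s : Bool → ℝ) (i : ι) (g : (ι → Bool) → ℝ) (η : ι → Bool) :
    (K s {i} *ᵥ fun ξ => rt s ξ * g ξ) η = rt s η * ∑ b, s b ^ 2 * g (update η i b) := by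
  have e : ∀ ξ, K s {i} η ξ = ∑ b, if ξ = update η i b then s (η i) * s b else 0 := fun ξ => by
    rw [K, ← mul_prod_erase _ _ (mem_univ i), prod_congr rfl fun j hj => if_neg (by simpa using hj),
      prod_boole]
    simp [eq_update_iff, ite_and, eq_comm (a := η _)]
  simp only [mulVec, dotProduct, e, sum_mul, ite_mul, zero_mul, mul_sum]
  refine sum_comm.trans (sum_congr rfl fun b _ => ?_)
  rw [sum_ite_eq', if_pos (mem_univ _), rt, rt, ← mul_prod_erase _ _ (mem_univ i),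
    ← mul_prod_erase _ _ (mem_univ i), update_self,
    prod_congr rfl fun j hj => by rw [update_of_ne (ne_of_mem_erase hj)]]
  ring

noncomputable def sy (f : Option φ × (ι → Bool) → ℝ) (z : φ × (ι → Bool)) : ℝ :=
  rt (sr ρ) z.2 * f (some z.1, z.2)

def rate (μ : ℝ≥0) (j : Bool × ι) : ℝ≥0 := if j.1 then 1 else μ

variable (h0 : ∀ i, τ i none = none) {μ : ℝ≥0} {a : ℝ} {wt : Option (Bool × ι) → ℝ}
  (hw : ∀ j, wt (some j) = rate μ j * a) (h1 : ∑ o, wt o = 1)

include hw h1 in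
lemma TT_eq (f : Option φ × (ι → Bool) → ℝ) (z : Option φ × (ι → Bool)) : TT τ ρ wt f z =
    f z - a * ∑ i, (μ * (f z - ∑ b, ρ.real {b} * f (z.1, update z.2 i b)) +
      if z.2 i then f z - f (τ i z.1, z.2) else 0) := by
  have e : ∀ i, f (if z.2 i then τ i z.1 else z.1, z.2) =
      f z - if z.2 i then f z - f (τ i z.1, z.2) else 0 := fun i => by split_ifs <;> simp
  rw [Fintype.sum_option, ← eq_sub_iff_add_eq] at h1
  simp only [TT, Fintype.sum_option, h1, hw, Fintype.sum_prod_type, Fintype.sum_bool (α := ℝ), Top,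
    rate, e, if_true, Bool.false_eq_true, if_false, NNReal.coe_one, mul_sub, sum_sub_distrib,
    sum_add_distrib, ← mul_sum, sum_const, nsmul_eq_mul]
  ring

include h0 hw h1 in
lemma TT_sy (n : ℕ) {f : Option φ × (ι → Bool) → ℝ} (hf : ∀ η, f (none, η) = 0) :
    (∀ η, (TT τ ρ wt)^[n] f (none, η) = 0) ∧
    sy ρ ((TT τ ρ wt)^[n] f) = (fun w => w - a • GA τ (sr ρ) μ *ᵥ w)^[n] (sy ρ f) := by
  induction n with
  | zero => exact ⟨hf, rfl⟩
  | succ n ih =>
    simp only [iterate_succ_apply', ← ih.2]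
    generalize (TT τ ρ wt)^[n] f = g at ih
    refine ⟨fun η => by simp [TT_eq ρ hw h1, ih.1, h0], funext fun ⟨x, η⟩ => ?_⟩
    rw [Pi.sub_apply, Pi.smul_apply, GA_apply, sy, sy, TT_eq ρ hw h1, mul_sub, mul_left_comm,
      smul_eq_mul, mul_sum (a := rt _ _)]
    congr 2
    refine sum_congr rfl fun i _ => ?_
    simp only [sy, K_apply (sr ρ) i fun ξ => g (some x, ξ), sr_sq, Pm_apply]
    rcases τ i (some x) with _ | y <;> split_ifs <;> simp [ih.1] <;> ring

include hw h1 in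
lemma TT_drift (hw0 : ∀ o, 0 ≤ wt o) (ha : 0 ≤ a) {r : Option φ → ℝ} {κ : ℝ}
    (hr : ∀ y, ∑ i, max (r (τ i y) - r y) 0 ≤ κ) {f : Option φ × (ι → Bool) → ℝ}
    (hf : ∀ z, f z ≤ r z.1) (n : ℕ) : ∀ z, (TT τ ρ wt)^[n] f z ≤ r z.1 + n * (a * κ) := by
  induction n with
  | zero => simpa using hf
  | succ n ih =>
    intro z
    rw [iterate_succ_apply']
    refine le_trans (b := TT τ ρ wt (fun z => r z.1 + n * (a * κ)) z)
      (sum_le_sum fun o _ => mul_le_mul_of_nonneg_left ?_ (hw0 o)) ?_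
    · rcases o with _ | ⟨_ | _, i⟩
      · exact ih _
      · exact sum_le_sum fun b _ => mul_le_mul_of_nonneg_left (ih _) measureReal_nonneg
      · exact ih _
    · have e := sr_sum ρ
      simp only [sr_sq] at e
      simp only [TT_eq ρ hw h1, ← sum_mul, Fintype.sum_bool, e, one_mul, sub_self, mul_zero, zero_add]
      have := (sum_le_sum fun i (_ : i ∈ univ) => (show -(if z.2 i then r z.1 + n * (a * κ) -
        (r (τ i z.1) + n * (a * κ)) else 0) ≤ max (r (τ i z.1) - r z.1) 0 by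
          split_ifs <;> simp)).trans (hr z.1)
      rw [sum_neg_distrib] at this
      push_cast
      nlinarith [mul_le_mul_of_nonneg_left this ha]

noncomputable abbrev Λ (ι : Type) (μ δ : ℝ≥0) : Measure (Bool × ι → ℕ) :=
  Measure.infinitePi fun j => poissonMeasure (rate μ j * δ)

open Classical in
noncomputable def pk (z : Bool × ι → ℕ) : Option (Bool × ι) :=
  if h : ∃ j, z = Pi.single j 1 then some h.choose else none

lemma pk_eq {z : Bool × ι → ℕ} {j : Bool × ι} : pk z = some j ↔ z = Pi.single j 1 := by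
  unfold pk
  split_ifs with h
  · refine ⟨fun k => Option.some.inj k ▸ h.choose_spec, fun k => congrArg some ?_⟩
    have := congrFun (k.symm.trans h.choose_spec) j
    by_contra c
    simp [Pi.single_apply, Ne.symm c] at this
  · simpa using fun k => h ⟨j, k⟩

noncomputable def RR (ι : Type) [Fintype ι] (μ : ℝ≥0) : ℝ := ∑ j : Bool × ι, rate μ j

lemma RR0 : 0 ≤ RR ι μ := sum_nonneg fun _ _ => NNReal.coe_nonneg _

lemma wt_some (δ : ℝ≥0) (j : Bool × ι) :
    (Λ ι μ δ).real {z | pk z = some j} = rate μ j * (δ * exp (-(RR ι μ * δ))) := by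
  have e : ∀ i, (poissonMeasure (rate μ i * δ)).real {(Pi.single j 1 : Bool × ι → ℕ) i} =
      (if i = j then (rate μ i * δ : ℝ) else 1) * exp (-(rate μ i * δ)) := fun i => by
    rw [poissonMeasure_real_singleton]
    by_cases h : i = j <;> simp [h, mul_comm]
  simp only [pk_eq, Set.ofPred_eq_eq_singleton]
  rw [Measure.real, Measure.infinitePi_singleton_of_fintype, ENNReal.toReal_prod]
  simp only [← Measure.real.eq_1, e, prod_mul_distrib, prod_ite_eq', mem_univ, if_true, ← exp_sum,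
    sum_neg_distrib, ← sum_mul, RR, mul_assoc]

lemma wt_sum (δ : ℝ≥0) : ∑ o, (Λ ι μ δ).real {z | pk z = o} = 1 := by
  refine (sum_measureReal_preimage_singleton (μ := Λ ι μ δ) univ (f := pk)
    fun _ _ => .of_discrete).trans (by simp)

lemma wt_bad (δ : ℝ≥0) : (Λ ι μ δ).real {z | pk z = none ∧ z ≠ 0} ≤ (RR ι μ * δ) ^ 2 := by
  have h := wt_sum (ι := ι) (μ := μ) δ
  have h2 : (Λ ι μ δ).real {0} = exp (-(RR ι μ * δ)) := by
    rw [Measure.real, Measure.infinitePi_singleton_of_fintype, ENNReal.toReal_prod]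
    simp [← Measure.real.eq_1, poissonMeasure_real_singleton, ← exp_sum, RR, sum_mul]
  have h3 : (Λ ι μ δ).real {z | pk z = none} = (Λ ι μ δ).real {z | pk z = none ∧ z ≠ 0} +
      (Λ ι μ δ).real {0} := by
    rw [← measureReal_union (by simp) .of_discrete]
    congr 1
    ext z
    by_cases k : z = 0
    · have : pk (0 : Bool × ι → ℕ) = none := Option.eq_none_iff_forall_ne_some.2 fun j e => by
        simpa using congrFun (pk_eq.1 e) j
      simp [k, this]
    · simp [k]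
  simp only [Fintype.sum_option, wt_some, ← sum_mul, h3, h2] at h
  have h4 := add_one_le_exp (-(RR ι μ * δ))
  have h5 : 0 ≤ RR ι μ * δ := mul_nonneg RR0 δ.coe_nonneg
  change _ + RR ι μ * _ = _ at h
  nlinarith

variable (τ) in
def Ev (n : ℕ) (x : Option φ) (B : Set (Option φ)) :
    Set ((ι × ℕ → Bool) × (ℕ → Bool × ι → ℕ)) :=
  {y | (run τ (fun k : Fin n => pk (y.2 k)) (x, y.1)).1 ∈ B}

noncomputable abbrev QQ (ι : Type) (μ δ : ℝ≥0) : Measure ((ι × ℕ → Bool) × (ℕ → Bool × ι → ℕ)) :=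
  (PP ρ (ι × ℕ)).prod (PP (Λ ι μ δ) ℕ)

lemma Ev_eq (δ : ℝ≥0) (n : ℕ) (x : Option φ) (B : Set (Option φ)) :
    MeasurableSet (Ev τ n x B) ∧ (QQ ρ ι μ δ).real (Ev τ n x B) = ∑ η, rt (sr ρ) η * (rt (sr ρ) η *
      (TT τ ρ fun o => (Λ ι μ δ).real {z | pk z = o})^[n] ((Prod.fst ⁻¹' B).indicator 1) (x, η)) := by
  have e : ∀ η : ι → Bool, rt (sr ρ) η * rt (sr ρ) η = ∏ i, ρ.real {η i} := fun η => by
    simp only [rt, ← prod_mul_distrib, ← sr_sq, sq]
  simp only [← mul_assoc, e]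
  exact chain τ ρ (Λ ι μ δ) (fun _ => .of_discrete) (Prod.fst ⁻¹' B) n x

include h0 in
lemma Ev_lim {l e} (h : Eig (GA τ (sr ρ) μ) l e) (t : ℝ≥0) (x : φ) {B : Set (Option φ)}
    (hB : none ∉ B) : Tendsto (fun n : ℕ => (QQ ρ ι μ (t / n)).real (Ev τ n (some x) B)) atTop
      (𝓝 (ht l e t (fun z => VV φ ι (sr ρ) z x) (VV φ ι (sr ρ) *ᵥ fun y => B.indicator 1 (some y)))) := by
  have h2 : Tendsto (fun n : ℕ => n * ((t / n : ℝ≥0) * exp (-(RR ι μ * (t / n : ℝ≥0))))) atTop
      (𝓝 (t : ℝ)) := by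
    have := ((continuous_exp.tendsto _).comp
      ((tendsto_const_div_atTop_nhds_zero_nat (t : ℝ)).const_mul (RR ι μ)).neg).const_mul (t : ℝ)
    refine (this.congr' ?_).trans (by simp)
    filter_upwards [eventually_ne_atTop 0] with n hn
    simp [← mul_assoc, mul_div_cancel₀, hn]
  refine (h.lim h2 _ _).congr fun n => ?_
  rw [(Ev_eq ρ _ n _ B).2, show (VV φ ι (sr ρ) *ᵥ fun y => B.indicator 1 (some y)) =
    sy ρ ((Prod.fst ⁻¹' B).indicator 1) from funext fun z => VV_mul ..,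
    ← (TT_sy ρ h0 (wt_some _) (wt_sum _) n fun η => by simp [hB]).2]
  simp [dotProduct, Fintype.sum_prod_type, VV, sy]

lemma Ev_drift (t : ℝ≥0) (x : Option φ) {r : Option φ → ℝ} {κ : ℝ} (hκ : 0 ≤ κ)
    (hr : ∀ y, ∑ i, max (r (τ i y) - r y) 0 ≤ κ) (r0 : ∀ y, 0 ≤ r y) (r1 : r none = 1) (n : ℕ) :
    (QQ ρ ι μ (t / n)).real (Ev τ n x {none}) ≤ r x + t * κ := by
  rw [(Ev_eq ρ _ n _ _).2]
  refine (sum_le_sum fun η _ => (mul_assoc ..).symm.trans_le (mul_le_mul_of_nonneg_left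
    (TT_drift ρ (wt_some _) (wt_sum _) (fun _ => measureReal_nonneg) (by positivity) hr
      (fun z => ?_) n _) (mul_self_nonneg _))).trans ?_
  · by_cases k : z.1 = none <;> simp [k, r0, r1]
  · dsimp only
    rw [← sum_mul, rt_sq (sr_sum ρ), one_mul, ← mul_assoc, ← mul_assoc]
    gcongr
    refine (mul_le_of_le_one_right (by positivity) (exp_le_one_iff.2 (by
      simpa using mul_nonneg RR0 (by positivity)))).trans ?_
    rcases eq_or_ne n 0 with k | k <;> simp [k, mul_div_cancel₀]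

end Pool.Agent.H.MP_2a8190_pr
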