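import Pool.Agent.H.MP_2a8190_pr.D

/-! Degree bound and Cheeger inequality; finite pieces of a graph. -/

set_option linter.unusedSectionVars false

namespace Pool.Agent.H.MP_2a8190_pr

open Finset Matrix Real Function

section
variable {φ ι : Type} [Fintype φ] [DecidableEq φ] [Fintype ι] [DecidableEq ι]
  {τ : ι → Option φ → Option φ} (hτ : ∀ i x y, τ i (some x) = some y → τ i (some y) = some x)
  {d : ℝ} (hd : ∀ x, ∑ i, (if τ i (some x) = some x then 0 else 1 : ℝ) ≤ d)

include hτ hd in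
lemma moved (a : φ → ℝ) : ∑ i, ∑ x, (if τ i (some x) = some x then 0 else
    a x ^ 2 + (τ i (some x)).elim 0 a ^ 2) ≤ 2 * d * (a ⬝ᵥ a) := by
  have h1 : ∀ i, ∑ x, (if τ i (some x) = some x then 0 else a x ^ 2 + (τ i (some x)).elim 0 a ^ 2) ≤
      ∑ x, (if τ i (some x) = some x then 0 else 1 : ℝ) * (2 * a x ^ 2) := fun i => by
    have h := swap_le hτ i fun x => if τ i (some x) = some x then 0 else a x ^ 2
    rw [← sub_eq_zero, ← sum_sub_distrib] at h
    refine le_trans (sum_le_sum fun x _ => ?_)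
      (sum_add_distrib.trans ((congrArg _ h).trans (add_zero _))).le
    rcases k : τ i (some x) with _ | y
    · simp [two_mul, sq_nonneg]
    · by_cases e : y = x
      · simp [e ▸ k, e]
      · simp [hτ i x y k, e, Ne.symm e, two_mul]
  refine (sum_le_sum fun i _ => h1 i).trans (sum_comm.trans_le ?_)
  rw [dotProduct, mul_sum]
  refine sum_le_sum fun x _ => ?_
  rw [← sum_mul]
  nlinarith [hd x, sq_nonneg (a x)]

include hτ hd in
lemma Pm_le (a : φ → ℝ) : a ⬝ᵥ (∑ i, Pm τ i) *ᵥ a ≤ 2 * d * (a ⬝ᵥ a) := by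
  refine le_trans ?_ (moved hτ hd a)
  rw [sum_mulVec, dotProduct_sum]
  refine sum_le_sum fun i _ => le_of_mul_le_mul_left ?_ two_pos
  rw [Pm_form hτ, mul_sum]
  refine sum_le_sum fun x _ => ?_
  rcases τ i (some x) with _ | y
  · simp [two_mul]
  · by_cases e : y = x <;> simp [e]
    nlinarith [sq_nonneg (a x + a y)]

lemma coarea {h : ℝ} (hh : ∀ A : Finset φ, h * A.card ≤ ∑ i, ∑ x, max ((if x ∈ A then 1 else 0) -
    (τ i (some x)).elim 0 fun x => if x ∈ A then (1 : ℝ) else 0) 0) (n : ℕ) : ∀ g : φ → ℝ,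
    (∀ x, 0 ≤ g x) → #{x | g x ≠ 0} ≤ n →
      h * ∑ x, g x ≤ ∑ i, ∑ x, max (g x - (τ i (some x)).elim 0 g) 0 := by
  induction n with
  | zero =>
    intro g _ h2
    rw [sum_eq_zero fun x _ => (by simpa using h2 : ∀ x, g x = 0) x, mul_zero]
    positivity
  | succ n ih =>
    intro g h1 h2
    rcases eq_empty_or_nonempty {x | g x ≠ 0} with k | k
    · exact ih g h1 (by simp [k])
    obtain ⟨y, k1, k2⟩ := exists_min_image _ g k
    simp only [mem_filter, mem_univ, true_and] at k1 k2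
    have h3 := ih (fun x => g x - g y * if g x ≠ 0 then 1 else 0)
      (fun x => by by_cases e : g x = 0 <;> simp [e, k2]) (Nat.le_of_lt_succ (lt_of_lt_of_le
        (card_lt_card ⟨fun x => by by_cases e : g x = 0 <;> simp [e], fun e => by
          simpa [k1] using e (mem_filter.2 ⟨mem_univ y, k1⟩)⟩) h2))
    have h4 := mul_le_mul_of_nonneg_left (hh {x | g x ≠ 0}) (h1 y)
    rw [sum_sub_distrib, ← mul_sum, sum_boole] at h3
    refine le_trans (by linarith) ((add_le_add h3 h4).trans ?_)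
    simp only [mul_sum, ← sum_add_distrib]
    refine sum_le_sum fun i _ => sum_le_sum fun x _ => ?_
    rcases τ i (some x) with _ | z
    · by_cases e : g x = 0 <;> simp [e, k2, h1]
    · have := h1 z
      by_cases e : g x = 0 <;> by_cases e' : g z = 0 <;> simp [e, e', k2, h1]

include hτ hd in
lemma cheeger {h : ℝ} (h0 : 0 < h) (d0 : 0 < d)
    (hh : ∀ A : Finset φ, h * A.card ≤ ∑ i, ∑ x, max ((if x ∈ A then 1 else 0) -
      (τ i (some x)).elim 0 fun x => if x ∈ A then (1 : ℝ) else 0) 0) (a : φ → ℝ) :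
    h ^ 2 / (8 * d) * (a ⬝ᵥ a) ≤ a ⬝ᵥ (∑ i, Pm τ i) *ᵥ a := by
  have h1 := coarea hh _ (fun x => a x ^ 2) (fun x => sq_nonneg _) le_rfl
  have h2 := moved hτ hd a
  have h3 : 4 * d * h * ∑ i, ∑ x, max (a x ^ 2 - (τ i (some x)).elim 0 fun x => a x ^ 2) 0 ≤
      8 * d ^ 2 * (2 * (a ⬝ᵥ (∑ i, Pm τ i) *ᵥ a)) + h ^ 2 * ∑ i, ∑ x,
        (if τ i (some x) = some x then 0 else a x ^ 2 + (τ i (some x)).elim 0 a ^ 2) := by
    simp only [sum_mulVec, dotProduct_sum, mul_sum (a := (2 : ℝ)), Pm_form hτ]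
    simp only [mul_sum, ← sum_add_distrib]
    refine sum_le_sum fun i _ => sum_le_sum fun x _ => ?_
    rw [mul_max_of_nonneg _ _ (by positivity), mul_zero]
    refine max_le ?_ (by positivity)
    rcases τ i (some x) with _ | y
    · simp only [Option.elim, reduceCtorEq, if_true, if_false]
      nlinarith [mul_nonneg (sq_nonneg (a x)) (sq_nonneg (2 * d - h)), sq_nonneg (d * a x)]
    · by_cases e : y = x <;> simp [e]
      nlinarith [sq_nonneg (4 * d * (a x - a y) - h * (a x + a y)), sq_nonneg (h * (a x - a y))]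
  rw [div_mul_eq_mul_div, div_le_iff₀ (by positivity)]
  simp only [sq (a _)] at h1
  change h * (a ⬝ᵥ a) ≤ _ at h1
  simp only [← sq (a _)] at h1
  refine le_of_mul_le_mul_left ?_ (mul_pos two_pos d0)
  nlinarith [mul_le_mul_of_nonneg_left h1 (show 0 ≤ 4 * d * h by positivity),
    mul_le_mul_of_nonneg_left h2 (sq_nonneg h)]

end

variable {V : Type} [DecidableEq V] (G : SimpleGraph V) [G.LocallyFinite] (F : Finset V)

def EF : Finset (Sym2 V) := F.biUnion fun x => G.incidenceFinset x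

def sw (e : Sym2 V) : Equiv.Perm V := Sym2.lift ⟨Equiv.swap, Equiv.swap_comm⟩ e

def mv (i : EF G F) (y : Option F) : Option F :=
  y.bind fun x => if h : sw i.1 x ∈ F then some ⟨_, h⟩ else none

noncomputable def bd : ℝ := ∑ x ∈ F, ∑ y ∈ G.neighborFinset x, if y ∈ F then 0 else 1

variable {G F}

lemma mem_EF {x y : V} (hx : x ∈ F) (h : G.Adj x y) : s(x, y) ∈ EF G F :=
  mem_biUnion.2 ⟨x, hx, by simp [SimpleGraph.incidenceSet, h]⟩

lemma sw_cases (i : EF G F) (x : V) :
    (x ∉ i.1 ∧ sw i.1 x = x) ∨ ∃ y, G.Adj x y ∧ i.1 = s(x, y) ∧ sw i.1 x = y := by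
  obtain ⟨e, he⟩ := i
  obtain ⟨z, -, hz⟩ := mem_biUnion.1 he
  have h := ((G.mem_incidenceFinset z e).1 hz).1
  by_cases k : x ∈ e
  · obtain ⟨y, rfl⟩ := Sym2.mem_iff_exists.1 k
    exact .inr ⟨y, h, rfl, by simp [sw]⟩
  · induction e using Sym2.ind with | _ a b =>
    simp only [Sym2.mem_iff, not_or] at k
    exact .inl ⟨by simpa using k, Equiv.swap_apply_of_ne_of_ne k.1 k.2⟩

lemma mv_sy (i : EF G F) (x y : F) (h : mv G F i (some x) = some y) : mv G F i (some y) = some x := by
  have e : ∀ (e : Sym2 V) x, sw e (sw e x) = x := fun e x => by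
    induction e using Sym2.ind with | _ a b => simp [sw]
  simp only [mv, Option.bind_some, Option.dite_none_right_eq_some, Option.some.injEq] at h ⊢
  obtain ⟨h1, rfl⟩ := h
  simp [e]

lemma sum_sw {x : V} (hx : x ∈ F) {ψ : V → ℝ} (h : ψ x = 0) :
    ∑ i : EF G F, ψ (sw i.1 x) = ∑ y ∈ G.neighborFinset x, ψ y := by
  rw [sum_coe_sort (EF G F) fun e => ψ (sw e x), ← sum_subset (s₁ := (G.neighborFinset x).image
    fun y => s(x, y)) (fun e he => by
      obtain ⟨y, hy, rfl⟩ := mem_image.1 he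
      exact mem_EF hx (by simpa using hy)) fun e he k => ?_,
    sum_image fun a _ b _ e => Sym2.congr_right.1 e]
  · simp [sw]
  · rcases sw_cases ⟨e, he⟩ x with k1 | ⟨y, k1, k2, -⟩
    · rw [k1.2, h]
    · exact absurd (mem_image.2 ⟨y, by simpa using k1, k2.symm⟩) k

lemma mv_deg (x : F) : ∑ i, (if mv G F i (some x) = some x then 0 else 1 : ℝ) = G.degree x.1 := by
  have := sum_sw (G := G) x.2 (ψ := fun v => if v = x then 0 else 1) (by simp)
  rw [sum_congr rfl fun y hy => if_neg ((G.mem_neighborFinset _ _).1 hy).ne', sum_const,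
    G.card_neighborFinset_eq_degree, nsmul_one] at this
  refine Eq.trans (sum_congr rfl fun i _ => ?_) this
  by_cases k : sw i.1 x = x <;> simp [mv, k, Subtype.ext_iff]

lemma mv_bd (A : Finset F) : ∑ i, ∑ x, max ((if x ∈ A then 1 else 0) -
    (mv G F i (some x)).elim 0 fun x => if x ∈ A then (1 : ℝ) else 0) 0 =
      bd G (A.map (Embedding.subtype _)) := by
  rw [bd, sum_map, sum_comm, ← sum_subset (subset_univ A) fun x _ hx => sum_eq_zero fun i _ => by
    rcases mv G F i (some x) with _ | y <;> simp [hx] ; positivity]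
  refine sum_congr rfl fun x hx => Eq.trans (sum_congr rfl fun i _ => ?_) (sum_sw x.2 (by simp [hx]))
  by_cases k : sw i.1 x ∈ F <;> simp [mv, k, hx]
  split_ifs <;> simp

lemma bd_eq : (1 : F → ℝ) ⬝ᵥ (∑ i, Pm (mv G F) i) *ᵥ 1 = bd G F := by
  have := mv_bd (G := G) (F := F) univ
  rw [show (univ : Finset F).map (Embedding.subtype _) = F from attach_map_val] at this
  rw [← this, sum_mulVec, dotProduct_sum]
  refine sum_congr rfl fun i _ => sum_congr rfl fun x _ => ?_
  rw [Pm_apply]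
  rcases mv G F i (some x) with _ | y <;> simp

lemma ball (hG : G.Preconnected) (o : V) (R : ℕ) : {x | G.dist o x < R}.Finite := by
  induction R with
  | zero => simp
  | succ R ih =>
    refine ((ih.biUnion fun y _ => (G.neighborFinset y).finite_toSet).insert o).subset fun x hx => ?_
    obtain ⟨p, hp⟩ := (hG x o).exists_walk_length_eq_dist
    cases p with
    | nil => simp
    | @cons _ v _ h q =>
      have := G.dist_le q
      rw [SimpleGraph.dist_comm] at this hp
      exact .inr (Set.mem_biUnion (show G.dist o v < R by simp at hp hx; omega) (by simpa using h.symm))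

end Pool.Agent.H.MP_2a8190_pr
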