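import Pool.Agent.H.MP_2a8190_pr.E
import Pool.Agent.H.MP_e8a7ad_pr.D

/-! Paths of the walk against the chain on a time grid. -/

set_option linter.unusedSectionVars false

namespace Pool.Agent.H.MP_2a8190_pr

open Finset Matrix Real Function MeasureTheory ProbabilityTheory Filter Topology
open Pool.Agent.H.MP_b9fdbf_pr (PP ev)
open Pool.Agent.H.MP_e8a7ad_pr (ring_at)
open scoped NNReal

variable {V : Type} [DecidableEq V] {G : SimpleGraph V} [G.LocallyFinite] {F : Finset V}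

structure Pa (G : SimpleGraph V) (N : Bool × Sym2 V → ℝ≥0 → ℕ) (b : Sym2 V × ℕ → Bool)
    (X : ℝ≥0 → V) : Prop where
  mono : ∀ e, Monotone (N e)
  rc : ∀ e t, ContinuousWithinAt (N e) (Set.Ici t) t
  zero : ∀ e, N e 0 = 0
  stay : ∀ s t, s ≤ t → (∀ y, G.Adj (X s) y → N (true, s(X s, y)) t = N (true, s(X s, y)) s) →
    X t = X s
  jump : ∀ s t y, s < t → G.Adj (X s) y →
    (∀ r < t, N (true, s(X s, y)) r < N (true, s(X s, y)) t) →
    (∀ z, G.Adj (X s) z → ∀ r, s ≤ r → r < t → N (true, s(X s, z)) r = N (true, s(X s, z)) s) →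
    X t = if b (s(X s, y), N (false, s(X s, y)) t) then y else X s

def Inv (N : Bool × Sym2 V → ℝ≥0 → ℕ) (b : Sym2 V × ℕ → Bool) (X : ℝ≥0 → V) (t : ℝ≥0)
    (Y : Option F × (EF G F × ℕ → Bool)) : Prop :=
  (∀ x, Y.1 = some x → x.1 = X t) ∧ ∀ i m, Y.2 (i, m) = b (i.1, N (false, i.1) t + m)

variable {N : Bool × Sym2 V → ℝ≥0 → ℕ} {b : Sym2 V × ℕ → Bool} {X : ℝ≥0 → V}

lemma Pa.step (h : Pa G N b X) {s t : ℝ≥0} (hst : s ≤ t) {Y : Option F × (EF G F × ℕ → Bool)}
    (hY : Inv N b X s Y) {z : Bool × EF G F → ℕ} (hz : ∀ j, N (j.1, j.2) t - N (j.1, j.2) s = z j)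
    (hg : pk z = none → z = 0) : Inv N b X t (step (mv G F) (pk z) Y) := by
  have e0 : ∀ j : Bool × EF G F, z j = 0 → ∀ r, s ≤ r → r ≤ t → N (j.1, j.2) r = N (j.1, j.2) s :=
    fun j k r h1 h2 => by
      have := h.mono (j.1, j.2) h1
      have := h.mono (j.1, j.2) h2
      have := hz j
      omega
  have e1 : ∀ x : F, x.1 = X s → (∀ i : EF G F, x.1 ∈ i.1 → z (true, i) = 0) → x.1 = X t :=
    fun x hx k => hx.trans (h.stay s t hst fun y hy =>
      e0 (true, ⟨_, mem_EF (hx ▸ x.2) hy⟩) (k _ (by simp [hx])) t hst le_rfl).symm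
  rcases k : pk z with _ | ⟨_ | _, i⟩
  · obtain rfl := hg k
    exact ⟨fun x hx => e1 x (hY.1 x hx) fun _ _ => rfl, fun i m => by
      rw [e0 (false, i) rfl t hst le_rfl]; exact hY.2 i m⟩
  · obtain rfl := pk_eq.1 k
    refine ⟨fun x hx => e1 x (hY.1 x hx) fun _ _ => by simp, fun j m => (hY.2 _ _).trans ?_⟩
    have h1 := hz (false, j)
    have h2 := h.mono (false, j.1) hst
    by_cases c : j = i <;> simp [c] at h1 h2 ⊢ <;> congr 2 <;> omega
  · obtain rfl := pk_eq.1 k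
    have e2 := fun j => e0 (false, j) (by simp)
    refine ⟨fun x hx => ?_, fun j m => by rw [e2 j t hst le_rfl]; exact hY.2 j m⟩
    obtain ⟨w, hw⟩ : ∃ w, Y.1 = some w := by
      rcases c : Y.1 with _ | w
      · simp [MP_2a8190_pr.step, c, mv] at hx
      · exact ⟨w, rfl⟩
    have h3 : x.1 = if Y.2 (i, 0) then sw i.1 w else w := by
      simp only [MP_2a8190_pr.step, hw, mv, Option.bind_some] at hx
      split_ifs at hx ⊢ <;> simp_all [← Option.some.inj hx]
    have h4 := hY.1 w hw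
    rcases sw_cases i w with c | ⟨y, c1, c2, c3⟩
    · rw [h3, c.2, ite_self]
      exact e1 w h4 fun j hj => Pi.single_eq_of_ne (by rintro ⟨⟩; exact c.1 hj) _
    · have h5 := hz (true, i)
      rw [Pi.single_eq_same] at h5
      obtain ⟨r, r1, r2, r3, r4⟩ := ring_at (h.mono (true, i.1)) (h.rc _) (a := s) (b := t)
        (by dsimp only at h5; omega)
      have e3 : ∀ j : EF G F, (∀ u, s ≤ u → u < r → N (true, j.1) u = N (true, j.1) s) ∧
          N (true, j.1) t = N (true, j.1) r := fun j => by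
        by_cases c : j = i
        · subst c
          have := h.mono (true, j.1) r2
          exact ⟨fun u u1 u2 => le_antisymm (r4 u u2) (h.mono _ u1), by dsimp only at h5; omega⟩
        · have := e0 (true, j) (by simp [c])
          exact ⟨fun u u1 u2 => this u u1 (u2.le.trans r2),
            (this t hst le_rfl).trans (this r r1.le r2).symm⟩
      have h6 := h.jump s r y r1 (h4 ▸ c1) (fun u hu => by
        rw [← h4, ← c2]; exact (r4 u hu).trans_lt r3) fun v hv =>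
          (e3 ⟨_, mem_EF (h4 ▸ w.2) hv⟩).1
      rw [← h4, ← c2, e2 i r r1.le r2, ← add_zero (N _ s), ← hY.2, ← c3, ← h3] at h6
      rw [h.stay r t r2 fun v hv => (e3 ⟨_, mem_EF (h6 ▸ x.2) hv⟩).2, h6]

def inc (F : Finset V) (G : SimpleGraph V) [G.LocallyFinite] (N : Bool × Sym2 V → ℝ≥0 → ℕ) (δ : ℝ≥0)
    (k : ℕ) (j : Bool × EF G F) : ℕ := N (j.1, j.2) ((k + 1 : ℕ) * δ) - N (j.1, j.2) (k * δ)

lemma Pa.run (h : Pa G N b X) (x : F) (hx : X 0 = x) (δ : ℝ≥0) (n : ℕ)
    (hg : ∀ k < n, pk (inc F G N δ k) = none → inc F G N δ k = 0) :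
    Inv N b X (n * δ) (run (mv G F) (fun k : Fin n => pk (inc F G N δ k))
      (some x, fun c => b (c.1.1, c.2))) := by
  induction n with
  | zero => exact ⟨fun y hy => by simpa [← Option.some.inj hy] using hx.symm, by
      simp [MP_2a8190_pr.run, h.zero]⟩
  | succ n ih =>
    rw [MP_2a8190_pr.run, Fin.foldl_succ_last]
    exact h.step (by gcongr; omega) (ih fun k hk => hg k (by omega)) (fun _ => rfl) (hg n (by omega))

variable {Ω : Type} [MeasurableSpace Ω] {P : Measure Ω} [IsProbabilityMeasure P]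
  {ρ : Measure Bool} [IsProbabilityMeasure ρ] {μ : ℝ≥0}

structure Mo (G : SimpleGraph V) [G.LocallyFinite] (ρ : Measure Bool) [IsProbabilityMeasure ρ]
    (μ : ℝ≥0) (o : V) (P : Measure Ω) (X : ℝ≥0 → Ω → V) : Prop where
  ex : ∃ (N : Bool × Sym2 V → ℝ≥0 → Ω → ℕ) (b : Ω → Sym2 V × ℕ → Bool),
    (∀ F δ, MeasurePreserving (fun ω => ((fun c : EF G F × ℕ => b ω (c.1.1, c.2)),
      inc F G (fun e t => N e t ω) δ)) P (QQ ρ _ μ δ)) ∧
    ∀ᵐ ω ∂P, X 0 ω = o ∧ Pa G (fun e t => N e t ω) (b ω) fun t => X t ω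

lemma Mo.fin {X : ℝ≥0 → Ω → V} (x : F) (h : Mo G ρ μ x.1 P X) (t : ℝ≥0) : ∀ᶠ n : ℕ in atTop,
    (QQ ρ _ μ (t / n)).real (Ev (mv G F) n (some x) {some x}) ≤ P.real {ω | X t ω = x} +
      (RR (EF G F) μ * t) ^ 2 / n ∧
    P.real {ω | X t ω = x} ≤ (QQ ρ _ μ (t / n)).real (Ev (mv G F) n (some x) {some x}) +
      (QQ ρ _ μ (t / n)).real (Ev (mv G F) n (some x) {none}) + (RR (EF G F) μ * t) ^ 2 / n := by
  filter_upwards [eventually_ne_atTop 0] with n hn
  obtain ⟨N, b, h1, h2⟩ := h.ex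
  have h3 := h1 F (t / n)
  set bad := ⋃ k : Fin n, {ω | inc F G (fun e t => N e t ω) (t / n) k ∈
    {z : Bool × EF G F → ℕ | pk z = none ∧ z ≠ 0}}
  have h4 : P.real bad ≤ (RR (EF G F) μ * t) ^ 2 / n := by
    refine (measureReal_iUnion_fintype_le _).trans ((sum_le_sum fun k _ =>
      (((measurePreserving_eval_infinitePi _ k.1).comp (measurePreserving_snd.comp h3)).measureReal_preimage
        MeasurableSet.of_discrete.nullMeasurableSet).trans_le (wt_bad _)).trans_eq ?_)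
    simp only [sum_const, card_univ, Fintype.card_fin, nsmul_eq_mul, NNReal.coe_div,
      NNReal.coe_natCast]
    field_simp
  have h5 : ∀ᵐ ω ∂P, ω ∉ bad → ∀ y, (run (mv G F) (fun k : Fin n => pk (inc F G
      (fun e t => N e t ω) (t / n) k)) (some x, fun c => b ω (c.1.1, c.2))).1 = some y →
        y.1 = X t ω := h2.mono fun ω k1 k2 => by
    have := (k1.2.run x k1.1 (t / n) n fun k hk k3 => by
      by_contra k4
      exact k2 (Set.mem_iUnion.2 ⟨⟨k, hk⟩, k3, k4⟩)).1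
    rwa [mul_div_cancel₀ _ (by simpa using hn)] at this
  simp only [← h3.measureReal_preimage (Ev_eq ρ (μ := μ) 0 n _ _).1.nullMeasurableSet]
  constructor
  · refine le_trans ?_ ((measureReal_union_le _ bad).trans (add_le_add le_rfl h4))
    exact ENNReal.toReal_mono (measure_ne_top _ _) (measure_mono_ae (h5.mono fun ω k1 k2 =>
      or_iff_not_imp_right.2 fun k3 => (k1 k3 x k2).symm))
  · refine le_trans ?_ ((measureReal_union_le _ bad).trans
      (add_le_add (measureReal_union_le _ _) h4))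
    refine ENNReal.toReal_mono (measure_ne_top _ _) (measure_mono_ae (h5.mono fun ω k1 k2 =>
      or_iff_not_imp_right.2 fun k3 => or_iff_not_imp_right.2 fun k4 => ?_))
    obtain ⟨y, hy⟩ := Option.ne_none_iff_exists'.1 k4
    exact hy.trans (congrArg some (Subtype.ext ((k1 k3 y hy).trans k2)))

lemma Mo.lim {X : ℝ≥0 → Ω → V} (x : F) (h : Mo G ρ μ x.1 P X) (t : ℝ≥0) {l e}
    (hA : Eig (GA (mv G F) (sr ρ) μ) l e) :
    ht l e t (fun z => VV F _ (sr ρ) z x) (fun z => VV F _ (sr ρ) z x) ≤ P.real {ω | X t ω = x} ∧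
    P.real {ω | X t ω = x} ≤ ht l e t (fun z => VV F _ (sr ρ) z x) (fun z => VV F _ (sr ρ) z x) +
      (1 - ht l e t (fun z => VV F _ (sr ρ) z x) (VV F _ (sr ρ) *ᵥ 1)) ∧
    ∀ (r : Option F → ℝ) (κ : ℝ), 0 ≤ κ → (∀ y, ∑ i, max (r (mv G F i y) - r y) 0 ≤ κ) →
      (∀ y, 0 ≤ r y) → r none = 1 → P.real {ω | X t ω = x} ≤
        ht l e t (fun z => VV F _ (sr ρ) z x) (fun z => VV F _ (sr ρ) z x) + (r x + t * κ) := by
  have h1 := Ev_lim ρ (fun _ => rfl) hA t x (B := {some x}) (by simp)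
  rw [show (VV F _ (sr ρ) *ᵥ fun y => Set.indicator {some x} 1 (some y)) =
    fun z => VV F _ (sr ρ) z x from funext fun z => (VV_mul ..).trans (by
      by_cases k : z.1 = x <;> simp [VV, k])] at h1
  have h2 := (Ev_lim ρ (fun _ => rfl) hA t x (B := {none}ᶜ) (by simp)).const_sub 1
  rw [show (fun y => Set.indicator {none}ᶜ 1 (some y)) = (1 : F → ℝ) from funext fun y => by simp]
    at h2
  have h3 := tendsto_const_div_atTop_nhds_zero_nat ((RR (EF G F) μ * t) ^ 2)
  refine ⟨le_of_tendsto_of_tendsto h1 (by simpa using h3.const_add _) ((h.fin x t).mono fun n k => k.1),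
    ge_of_tendsto (by simpa only [add_zero] using (h1.add h2).add h3) ((h.fin x t).mono fun n k => ?_),
    fun r κ k0 k1 k2 k3 => ge_of_tendsto (by simpa only [add_zero] using (h1.add_const _).add h3)
      ((h.fin x t).mono fun n k => k.2.trans (by gcongr; exact Ev_drift ρ t _ k0 k1 k2 k3 n))⟩
  rw [← probReal_compl_eq_one_sub (Ev_eq ρ (μ := μ) 0 n _ _).1]
  exact k.2.trans_eq (by congr 3; ext; simp [Ev])

end Pool.Agent.H.MP_2a8190_pr
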