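import Pool.Agent.H.MP_2a8190_pr.F

/-! Comparison of return probabilities. -/

set_option linter.unusedSectionVars false

namespace Pool.Agent.H.MP_2a8190_pr

open Finset Matrix Real Function MeasureTheory ProbabilityTheory Filter Topology
open scoped NNReal

variable {V : Type} [DecidableEq V] {G : SimpleGraph V} [G.LocallyFinite]

def Rp (G : SimpleGraph V) [G.LocallyFinite] (ρ : Measure Bool) [IsProbabilityMeasure ρ] (μ : ℝ≥0)
    (Q : ℝ≥0 → ℝ) : Prop :=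
  ∃ (Ω : Type) (_ : MeasurableSpace Ω) (P : Measure Ω) (_ : IsProbabilityMeasure P), ∀ x,
    ∃ X, Mo G ρ μ x P X ∧ ∀ t, P.real {ω | X t ω = x} = Q t

variable {ρ : Measure Bool} [IsProbabilityMeasure ρ] {μ : ℝ≥0} {Q : ℝ≥0 → ℝ} {d : ℝ}

lemma D_sy (F : Finset V) : (∑ i, Pm (mv G F) i)ᵀ = ∑ i, Pm (mv G F) i := by
  simp only [transpose_sum, Pm_sy mv_sy]

lemma D_pos (F : Finset V) (a : F → ℝ) : 0 ≤ a ⬝ᵥ (∑ i, Pm (mv G F) i) *ᵥ a := by
  rw [sum_mulVec, dotProduct_sum]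
  exact sum_nonneg fun i _ => Pm_pos mv_sy i a

lemma p_le : sr ρ true ^ 2 ≤ 1 := by nlinarith [sr_sum ρ, sq_nonneg (sr ρ false)]

lemma Rp.low (h : Rp G ρ μ Q) {F : Finset V} {δ f} (hΔ : Eig (∑ i, Pm (mv G F) i) δ f) (s : ℝ≥0) :
    ∑ j, exp (-(s * δ j)) ≤ F.card * Q s := by
  obtain ⟨Ω, _, P, _, h⟩ := h
  obtain ⟨l, e, hA⟩ := eig (GA_sy (s := sr ρ) (mv_sy (G := G) (F := F)) μ)
  refine (MP_2a8190_pr.low hA hΔ (VV_iso (sr_sum ρ)) s.coe_nonneg fun a => ?_).trans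
    ((sum_le_card_nsmul _ _ (Q s) fun x _ => ?_).trans_eq (by simp))
  · rw [formV (sr_sum ρ)]
    exact mul_le_of_le_one_left (D_pos F a) p_le
  · obtain ⟨X, h1, h2⟩ := h x
    exact h2 s ▸ (h1.lim x s hA).1

lemma Rp.low1 (h : Rp G ρ μ Q) (hd : ∀ x, (G.degree x : ℝ) ≤ d) (o : V) (s : ℝ≥0) :
    exp (-(s * (2 * d))) ≤ Q s := by
  obtain ⟨δ, f, hΔ⟩ := eig (D_sy (G := G) {o})
  refine le_trans ?_ ((h.low hΔ s).trans_eq (by simp))
  refine le_trans ?_ (single_le_sum (fun _ _ => (exp_pos _).le) (mem_univ ⟨o, by simp⟩))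
  have := Pm_le mv_sy (fun x => (mv_deg x).trans_le (hd _)) (f ⟨o, by simp⟩)
  rw [hΔ.val, hΔ.nm, mul_one] at this
  gcongr

lemma Rp.amen (h : Rp G ρ μ Q) (hd : ∀ x, (G.degree x : ℝ) ≤ d) (d1 : 1 ≤ d) (hμ : μ ≤ 1)
    {F : Finset V} {δ f} (hΔ : Eig (∑ i, Pm (mv G F) i) δ f) (t : ℝ≥0) :
    F.card * Q t ≤ ∑ j, exp (-(t * (μ * sr ρ true ^ 2 / (4 * (2 * d))) * δ j)) +
      F.card * exp (-(t * (μ * sr ρ true ^ 2 / (4 * (2 * d))))) + t * bd G F := by
  obtain ⟨Ω, _, P, _, h⟩ := h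
  obtain ⟨l, e, hA⟩ := eig (GA_sy (s := sr ρ) (mv_sy (G := G) (F := F)) μ)
  have h1 := upp hA hΔ (VV_iso (sr_sum ρ)) t.coe_nonneg (form_ge mv_sy (sr_sum ρ) μ.coe_nonneg hμ
    (by linarith) (Pm_le mv_sy fun x => (mv_deg x).trans_le (hd _)))
  have h2 := sum_le_sum fun (x : F) (_ : x ∈ univ) => by
    obtain ⟨X, h1, h2⟩ := h x
    exact (h2 t).ge.trans (h1.lim x t hA).2.1
  have h3 := hA.lin t (VV F _ (sr ρ) *ᵥ 1)
  rw [formV (sr_sum ρ), dotProduct_mulVec, iso (VV_iso (sr_sum ρ))] at h3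
  have h4 : ∑ x, ht l e t (fun z => VV F _ (sr ρ) z x) (VV F _ (sr ρ) *ᵥ 1) =
      ht l e t (VV F _ (sr ρ) *ᵥ 1) (VV F _ (sr ρ) *ᵥ 1) := by
    refine sum_comm.trans (sum_congr rfl fun i _ => ?_)
    rw [← mul_sum, ← sum_mul, ← dotProduct_sum]
    congr 3
    funext z
    simp [mulVec, dotProduct]
  have h5 := mul_le_mul_of_nonneg_left (mul_le_of_le_one_left (D_pos (G := G) F 1) (p_le (ρ := ρ)))
    t.coe_nonneg
  rw [sum_add_distrib, sum_sub_distrib, h4] at h2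
  rw [← bd_eq]
  simp only [sum_const, card_univ, Fintype.card_coe, nsmul_eq_mul, one_dotProduct_one, mul_one]
    at h1 h2 h3
  linarith

lemma Rp.non (h : Rp G ρ μ Q) (hG : G.Preconnected) (hd : ∀ x, (G.degree x : ℝ) ≤ d) (d1 : 1 ≤ d)
    (hμ : μ ≤ 1) (o : V) {κ : ℝ} (κ1 : κ ≤ 1)
    (hκ : ∀ (F : Finset V) a, κ * (a ⬝ᵥ a) ≤ a ⬝ᵥ (∑ i, Pm (mv G F) i) *ᵥ a) (t : ℝ≥0) :
    Q t ≤ exp (-(t * (μ * sr ρ true ^ 2 / (4 * (2 * d)) * κ))) := by
  obtain ⟨Ω, _, P, _, h⟩ := h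
  obtain ⟨X, h1, h2⟩ := h o
  refine ge_of_tendsto (by simpa only [add_zero] using
    (tendsto_const_div_atTop_nhds_zero_nat (t * d)).const_add _) ?_
  filter_upwards [eventually_gt_atTop 0] with R hR
  set F := (ball hG o R).toFinset
  have R0 : (0 : ℝ) < R := by exact_mod_cast hR
  obtain ⟨l, e, hA⟩ := eig (GA_sy (s := sr ρ) (mv_sy (G := G) (F := F)) μ)
  have h3 := (Mo.lim (F := F) ⟨o, by simpa [F] using hR⟩ h1 t hA).2.2
    (fun y => y.elim 1 fun y => G.dist o y / R) (d / R) (by positivity) (fun y => ?_)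
    (fun y => by rcases y with _ | y <;> simp; positivity) rfl
  · refine (h2 t).ge.trans (h3.trans (add_le_add ((hA.gap (c := μ * sr ρ true ^ 2 / (4 * (2 * d)) * κ)
      t.coe_nonneg (fun z => le_trans ?_
      (form_ge mv_sy (sr_sum ρ) μ.coe_nonneg hμ (by linarith)
        (Pm_le mv_sy fun x => (mv_deg x).trans_le (hd _)) z)) _).trans_eq ?_) (by simp [mul_div_assoc])))
    · have h4 : 0 ≤ (z - VV F _ (sr ρ) *ᵥ (z ᵥ* VV F _ (sr ρ))) ⬝ᵥ
          (z - VV F _ (sr ρ) *ᵥ (z ᵥ* VV F _ (sr ρ))) := sum_nonneg fun _ _ => mul_self_nonneg _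
      rw [sub_dotProduct, dotProduct_sub, dotProduct_sub, dotProduct_comm (_ *ᵥ _) z] at h4
      simp only [dotProduct_mulVec, iso (VV_iso (sr_sum ρ))] at h4
      rw [mul_assoc]
      gcongr
      nlinarith [hκ F (z ᵥ* VV F _ (sr ρ))]
    · exact (congrArg _ ((congrFun₂ (VV_iso (φ := F) (ι := EF G F) (sr_sum ρ)) _ _).trans
        (one_apply_eq _))).trans (mul_one _)
  · rcases y with _ | y
    · simp [mv]; positivity
    refine (sum_le_sum fun i _ => ?_).trans ((sum_div ..).symm.trans_le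
      (div_le_div_of_nonneg_right ((mv_deg y).trans_le (hd _)) R0.le))
    split_ifs with k
    · simp [k]
    have k1 : G.dist o (sw i.1 y) ≤ G.dist o y + 1 := by
      rcases sw_cases i y with c | ⟨z, c, -, c'⟩
      · simp [c.2]
      · rw [c', ← SimpleGraph.dist_eq_one_iff_adj.2 c]
        exact (hG _ _).dist_triangle_left _
    refine max_le ?_ (by positivity)
    rw [sub_le_iff_le_add', Option.elim_some, ← add_div, mv, Option.bind_some]
    split_ifs with k2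
    · exact div_le_div_of_nonneg_right (by exact_mod_cast k1) R0.le
    · rw [Option.elim_none, one_le_div R0]
      simp only [F, Set.Finite.mem_toFinset, Set.mem_ofPred_eq, not_lt] at k2
      exact_mod_cast k2.trans k1

lemma half (hG : G.Preconnected) (hd : ∀ x, (G.degree x : ℝ) ≤ d) (d1 : 1 ≤ d) (o : V)
    (ρ : Measure Bool) [IsProbabilityMeasure ρ] (hρ : 0 < ρ.real {true}) {μ : ℝ≥0} (μ0 : 0 < μ)
    (hμ : μ ≤ 1) : ∃ c : ℝ≥0, 0 < c ∧ ∀ (Q : ℝ≥0 → ℝ) (ρ' : Measure Bool) [IsProbabilityMeasure ρ']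
      (Q' : ℝ≥0 → ℝ), Rp G ρ μ Q → Rp G ρ' μ Q' → ∀ s t, s ≤ c * t → Q t ≤ 2 * Q' s := by
  have c0 : 0 < μ * sr ρ true ^ 2 / (4 * (2 * d)) := by rw [sr_sq]; positivity
  by_cases hh : ∃ h > 0, ∀ F : Finset V, h * F.card ≤ bd G F
  · obtain ⟨h, h0, hh⟩ := hh
    have κ0 : 0 < min (h ^ 2 / (8 * d)) 1 := by positivity
    lift μ * sr ρ true ^ 2 / (4 * (2 * d)) * min (h ^ 2 / (8 * d)) 1 / (2 * d) to ℝ≥0
      using by positivity with c hc
    refine ⟨c, by rw [← NNReal.coe_pos, hc]; positivity, fun Q ρ' _ Q' h1 h2 s t hs => ?_⟩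
    have h3 := h1.non hG hd d1 hμ o (min_le_right (h ^ 2 / (8 * d)) 1) (fun F a => le_trans
      (mul_le_mul_of_nonneg_right (min_le_left ..) (sum_nonneg fun _ _ => mul_self_nonneg _))
      (cheeger mv_sy (fun x => (mv_deg x).trans_le (hd _)) h0 (by positivity)
        (fun A => by simpa only [mv_bd, card_map] using hh (A.map (Embedding.subtype _))) a)) t
    have h4 := h2.low1 hd o s
    rw [← NNReal.coe_le_coe, NNReal.coe_mul, hc, div_mul_eq_mul_div, le_div_iff₀ (by positivity),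
      mul_comm _ (t : ℝ), ← neg_le_neg_iff, ← exp_le_exp] at hs
    linarith [exp_pos (-(s * (2 * d)))]
  · lift μ * sr ρ true ^ 2 / (4 * (2 * d)) / (2 * d) to ℝ≥0 using by positivity with c hc
    refine ⟨c, by rw [← NNReal.coe_pos, hc]; positivity, fun Q ρ' _ Q' h1 h2 s t hs => ?_⟩
    refine le_of_forall_pos_le_add fun ε ε0 => ?_
    push Not at hh
    obtain ⟨F, hF⟩ := hh (ε / (t + 1)) (by positivity)
    obtain ⟨δ, f, hΔ⟩ := eig (D_sy (G := G) F)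
    have h3 := h1.amen hd d1 hμ hΔ t
    have h4 := h2.low1 hd o s
    rw [← NNReal.coe_le_coe, NNReal.coe_mul, hc, div_mul_eq_mul_div, le_div_iff₀ (by positivity),
      mul_comm _ (t : ℝ)] at hs
    have h5 := (sum_le_sum fun j _ => exp_le_exp.2 (neg_le_neg (mul_le_mul_of_nonneg_right
      ((le_mul_of_one_le_right s.coe_nonneg (by linarith)).trans hs)
        ((D_pos F _).trans_eq (hΔ.val j))))).trans (h2.low hΔ s)
    have h6 : 0 ≤ bd G F := bd_eq (G := G) (F := F) ▸ D_pos F 1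
    have h7 : (0 : ℝ) < F.card := pos_of_mul_pos_right (h6.trans_lt hF) (by positivity)
    have h8 := mul_le_mul_of_nonneg_left ((exp_le_exp.2 (neg_le_neg hs)).trans h4) h7.le
    rw [div_mul_eq_mul_div, lt_div_iff₀ (by positivity)] at hF
    refine le_of_mul_le_mul_left ?_ h7
    nlinarith

end Pool.Agent.H.MP_2a8190_pr
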